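import Pool.Agent.Lib.MP_16285c_agZ.Defs

/-!
# Change of the field of definition, powers, representatives, values: statements (package KLV)

Notation: see `Defs.lean` (please read it first). `bc K L : RF K →+* RF L` is the base change (`bc_fr`, `bc_injective`,
`bc_gen`, `bc_algebraMap` are proved here). `Cmp σK σL`: `σL` is the base change of `σK` (`cmp_apply`: `σL (bc g) = bc (σK g)`).

Every lemma is a `Prop` with its proof in the docstring; the files proving them are independent: used statements are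
hypotheses.
-/

set_option autoImplicit false

namespace Pool.Agent.Lib.MP_16285c_agZ

open Pool.Agent.Lib.MP_16285c_ag

section bc

variable {K L : Type} [Field K] [Field L] [Algebra K L]

theorem fr_injective : Function.Injective (fr (K := K)) :=
  IsFractionRing.injective (MvPolynomial (Fin 2) K) (FractionRing (MvPolynomial (Fin 2) K))

theorem fr_ne_zero {G : Pl K} (h : G ≠ 0) : fr G ≠ 0 := by
  intro h0
  exact h (fr_injective (h0.trans (map_zero _).symm))

theorem exists_fr (g : RF K) : ∃ N D : Pl K, D ≠ 0 ∧ g = fr N / fr D := by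
  obtain ⟨N, D, hD, h⟩ := IsFractionRing.div_surjective (A := MvPolynomial (Fin 2) K) g
  exact ⟨N, D, nonZeroDivisors.ne_zero hD, h.symm⟩

theorem fr_C (c : K) : fr (MvPolynomial.C c) = algebraMap K (RF K) c := by
  rw [IsScalarTower.algebraMap_apply K (MvPolynomial (Fin 2) K) (RF K)]
  rfl

/-- Two algebra homomorphisms on `RF K` which agree on the variables are equal. -/
theorem hom_ext {A : Type} [Field A] (u v : RF K →+* A)
    (hK : ∀ c : K, u (algebraMap K (RF K) c) = v (algebraMap K (RF K) c))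
    (hg : ∀ i, u (gen K i) = v (gen K i)) : u = v := by
  apply IsFractionRing.injective_comp_algebraMap (A := MvPolynomial (Fin 2) K)
  change u.comp _ = v.comp _
  apply MvPolynomial.ringHom_ext
  · intro c
    change u (fr (MvPolynomial.C c)) = v (fr (MvPolynomial.C c))
    rw [fr_C]
    exact hK c
  · exact hg

variable (K L) in
theorem bc_aux : Function.Injective ((algebraMap (MvPolynomial (Fin 2) L)
    (FractionRing (MvPolynomial (Fin 2) L))).comp (MvPolynomial.map (algebraMap K L))) :=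
  (fr_injective (K := L)).comp (MvPolynomial.map_injective _ (algebraMap K L).injective)

variable (K L) in
/-- The base change `K(x, y) → L(x, y)`. -/
noncomputable def bc : RF K →+* RF L := IsFractionRing.lift (bc_aux K L)

theorem bc_fr (G : Pl K) : bc K L (fr G) = fr (MvPolynomial.map (algebraMap K L) G) :=
  IsFractionRing.lift_algebraMap (bc_aux K L) G

theorem bc_injective : Function.Injective (bc K L) := (bc K L).injective

theorem bc_gen (i : Fin 2) : bc K L (gen K i) = gen L i := by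
  rw [gen, bc_fr, MvPolynomial.map_X, gen]

theorem bc_algebraMap (c : K) :
    bc K L (algebraMap K (RF K) c) = algebraMap L (RF L) (algebraMap K L c) := by
  rw [← fr_C, bc_fr, MvPolynomial.map_C, fr_C]

/-- `σL` is the base change of `σK`. -/
def Cmp (σK : RF K →ₐ[K] RF K) (σL : RF L →ₐ[L] RF L) : Prop :=
  ∀ i, σL (gen L i) = bc K L (σK (gen K i))

theorem cmp_apply {σK : RF K →ₐ[K] RF K} {σL : RF L →ₐ[L] RF L} (h : Cmp σK σL) (g : RF K) :
    σL (bc K L g) = bc K L (σK g) := by
  have : (σL : RF L →+* RF L).comp (bc K L) = (bc K L).comp (σK : RF K →+* RF K) := by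
    apply hom_ext
    · intro c
      change σL (bc K L (algebraMap K (RF K) c)) = bc K L (σK (algebraMap K (RF K) c))
      rw [bc_algebraMap, AlgHom.commutes, AlgHom.commutes, bc_algebraMap]
    · intro i
      change σL (bc K L (gen K i)) = bc K L (σK (gen K i))
      rw [bc_gen, h]
  exact congrArg (fun u : RF K →+* RF L => u g) this

theorem cmp_pow {σK : RF K →ₐ[K] RF K} {σL : RF L →ₐ[L] RF L} (h : Cmp σK σL) (n : ℕ) :
    Cmp (σK ^ n) (σL ^ n) := by
  induction n with
  | zero =>
    intro i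
    rw [pow_zero, pow_zero, AlgHom.one_apply, AlgHom.one_apply, bc_gen]
  | succ n ih =>
    intro i
    rw [pow_succ', pow_succ', AlgHom.mul_apply, AlgHom.mul_apply, ih i, cmp_apply h]

theorem cmp_it {σK : RF K →ₐ[K] RF K} {σL : RF L →ₐ[L] RF L} (h : Cmp σK σL) (n : ℕ) (i : Fin 2) :
    it σL n i = bc K L (it σK n i) :=
  cmp_pow h n i

end bc

/-! ## Change of fields -/

/-- (K0) Linear disjointness. PROOF. Clear denominators: multiply by a common denominator in `Pl K`, so that `c j = fr (P j)` with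
`P j : Pl K`. Then `∑ j, λ j * fr (map P j) = fr (∑ j, C (λ j) * map P j) = 0`, so every coefficient `∑ j, λ j * (P j).coeff m` is `0`, so
`(P j).coeff m = 0` as the `λ j` are independent over `K`. -/
def SDisj : Prop :=
  ∀ (K L : Type) [Field K] [Field L] [Algebra K L] (n : ℕ) (l : Fin n → L), LinearIndependent K l →
    ∀ c : Fin n → RF K, ∑ j, algebraMap L (RF L) (l j) * bc K L (c j) = 0 → ∀ j, c j = 0

/-- (K1) Degrees over smaller fields. PROOF (uses `SDisj`). CLAIM: if `w : Fin n → RF K` is such that `∑ i, σK (c i) * w i = 0` implies `c = 0`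
for all `c : Fin n → RF K`, then the same holds for `σL` and the `bc (w i)`. Suppose `∑ i, σL (c i) * bc (w i) = 0`; multiplying by `σL` of
a common denominator we may assume `c i = fr (C i)`, `C i : Pl L`. Let `l` be a `K`-basis (`Fin r → L`) of the `K`-span of all coefficients of the
`C i`, so `C i = ∑ j, C (l j) * map (P i j)`, `P i j : Pl K`. Then `0 = ∑ j, l j * bc (∑ i, σK (fr (P i j)) * w i)` (`cmp_apply`), so
by `SDisj` `∑ i, σK (fr (P i j)) * w i = 0` for all `j`, so `P i j = 0`. CONSEQUENCE: an independent family over `σK.fieldRange` (elements `σK c`)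
has at most `[RF L : σL RF L]` members (`LinearIndependent.fintype_card_le_finrank`), so `RF K` is finite over `σK.fieldRange` of degree
`≤` this (for example `rank_le`, `Module.finite_of_rank_..`, `LinearIndependent` of all finite subsets of a basis). -/
def STpLe : Prop :=
  ∀ (K L : Type) [Field K] [Field L] [Algebra K L] (σK : RF K →ₐ[K] RF K) (σL : RF L →ₐ[L] RF L),
    Cmp σK σL → Module.Finite σL.fieldRange (RF L) →
    Module.Finite σK.fieldRange (RF K) ∧ tp σK ≤ tp σL

/-- (K2) PROOF (uses `STpLe`). Let `w i = fr (A i) / fr (B i)`, `i : Fin n`, be a basis of `RF L` over `σL.fieldRange`, `n = tp σL`, and `S` the set of all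
coefficients of the `A i`, `B i`. If `S` is in the image of `K` then `w i = bc (w' i)` (a polynomial all of whose coefficients are in
the image of `K` is in the image of `map`: `MvPolynomial.mem_range_map_iff_coeffs_subset`), and the `w' i` are linearly independent over
`σK.fieldRange`: a relation `∑ σK (c i) * w' i = 0` gives `∑ σL (bc (c i)) * w i = 0`, so `bc (c i) = 0`. So
`n ≤ tp σK` (`RF K` is finite over `σK.fieldRange` by `STpLe`). -/
def STpGe : Prop :=
  ∀ (L : Type) [Field L] (σL : RF L →ₐ[L] RF L), Module.Finite σL.fieldRange (RF L) →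
    ∃ S : Finset L, ∀ (K : Type) [Field K] [Algebra K L] (σK : RF K →ₐ[K] RF K),
      (∀ s ∈ S, s ∈ Set.range (algebraMap K L)) → Cmp σK σL →
      Module.Finite σK.fieldRange (RF K) ∧ tp σK = tp σL

/-- (K3) PROOF. (a) Let `φ : Pl K →ₐ[K] RF K`, `X i ↦ fr (f.num i) / fr (f.den i)` (`MvPolynomial.aeval`). It is injective because
`bc (φ A) = σL (fr (map A))` (both sides are ring homomorphisms of `A` which agree on constants and variables). So it extends to
`RF K` (`IsFractionRing.liftAlgHom`). (b) `NoI`: if `σK g = g` then `σL (bc g) = bc g`, so `bc g = c` for a `c : L`;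
`g = fr N / fr D` with `D.coeff m ≠ 0`; `map N = C c * map D`, so `c = N.coeff m / D.coeff m` is in `K` and `g` is a constant. (c) `jac` commutes with
`map` (`MvPolynomial.pderiv_map`). -/
def SDesc : Prop :=
  (∀ (K L : Type) [Field K] [Field L] [Algebra K L] (f : RM K 2) (σL : RF L →ₐ[L] RF L),
    Of (f.map (algebraMap K L)) σL → ∃ σK : RF K →ₐ[K] RF K, Of f σK ∧ Cmp σK σL) ∧
  (∀ (K L : Type) [Field K] [Field L] [Algebra K L] (σK : RF K →ₐ[K] RF K) (σL : RF L →ₐ[L] RF L),
    Cmp σK σL → NoI σL → NoI σK) ∧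
  (∀ (K L : Type) [Field K] [Field L] [Algebra K L] (f : RM K 2),
    jac (f.map (algebraMap K L)) = MvPolynomial.map (algebraMap K L) (jac f)) ∧
  (∀ (K L : Type) [Field K] [Field L] [Algebra K L] (g : Fin 2 → RF K) (F : Fin 3 → Pl K), Wk g F →
    Wk (fun i => bc K L (g i)) (fun i => MvPolynomial.map (algebraMap K L) (F i)))

/-! ## Powers -/

/-- (K4) PROOF. `σ ^ M g = g`. The coefficients of `Φ = ∏ i < M, (T - σ ^ i g) : (RF K)[T]` are invariant under `σ` (`Φ.map σ = Φ`: the factors are
permuted cyclically; `Polynomial.map_prod`, `Finset.prod_range_succ_comm`, `Finset.prod_range_succ'`), so they are constants, `Φ(g) = 0`, and `g` is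
algebraic over `K`. Then `g` is integral over `Pl K`, which is integrally closed, so `g = fr G`, and `G` is algebraic over `K`, so it
is a constant (degrees; or see `Mathlib/RingTheory/Algebraic/MvPolynomial.lean`). -/
def SNoIPow : Prop :=
  ∀ (K : Type) [Field K] (σ : RF K →ₐ[K] RF K) (M : ℕ), 1 ≤ M → NoI σ → NoI (σ ^ M)

/-- (K5) PROOF. Let `σ, ρ : RF K →ₐ[K] RF K`. `(σ * ρ).fieldRange = ρ.fieldRange.map σ ≤ σ.fieldRange`, and `[σ.fieldRange : (ρ.fieldRange).map σ] =
[RF K : ρ.fieldRange]` by the isomorphism `σ : RF K ≃ σ.fieldRange`. `IntermediateField.relfinrank_mul_finrank_top`, `relfinrank` and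
maps (`IntermediateField.relfinrank_map_map`), or `Module.finrank_mul_finrank`. So `tp (σ * ρ) = tp σ * tp ρ` (also if a degree is
infinite). Induction on `m`; `tp 1 = 1` (`AlgHom.fieldRange` of the identity is `⊤`). The last claim: `tp σ ≠ 0` iff finite. -/
def STpPow : Prop :=
  (∀ (K : Type) [Field K] (σ ρ : RF K →ₐ[K] RF K), tp (σ * ρ) = tp σ * tp ρ) ∧
  (∀ (K : Type) [Field K] (σ : RF K →ₐ[K] RF K) (m : ℕ), tp (σ ^ m) = tp σ ^ m) ∧
  (∀ (K : Type) [Field K] (σ : RF K →ₐ[K] RF K), 1 ≤ tp σ ↔ Module.Finite σ.fieldRange (RF K))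

/-! ## Representatives -/

/-- (K6) PROOF. (a) `g i = fr (N i) / fr (D i)`; `F' = (D 0 * D 1, N 0 * D 1, N 1 * D 0)` satisfies `Wk g F'`. (b) Let `Wk g F'` and let `c` be a
greatest common divisor of the three `F' i` in the factorial ring `Pl K` (`c ≠ 0`), `F' i = c * F i`: `Rep g F`, and
`totalDegree (F i) ≤ totalDegree (F' i)` (`MvPolynomial.totalDegree_mul_of_isDomain`; trivial if `F' i = 0`). So `dg g ≤ D` if all degrees of
`F'` are `≤ D`. (c) `Nat.sInf_mem` gives a `Rep g F` with degrees `≤ dg g`. If all were `< dg g` then `dg g - 1` would be in the set. (d) two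
representatives: `F 0 * F' (i.succ) = F' 0 * F (i.succ)` (`fr_injective`), so `F 0 ∣ F' 0 * F i` for all `i`, so `F 0 ∣ F' 0` as the `F i` have no
common factor, in the same way `F' 0 ∣ F 0`: `F' 0 = C c * F 0` with a unit `c` (the units of `Pl K` are the constants), and so for the others. -/
def SRep : Prop :=
  (∀ (K : Type) [Field K] (g : Fin 2 → RF K), ∃ F : Fin 3 → Pl K, Rep g F ∧
    (∀ i, (F i).totalDegree ≤ dg g) ∧ ∃ i, (F i).totalDegree = dg g) ∧
  (∀ (K : Type) [Field K] (g : Fin 2 → RF K) (F : Fin 3 → Pl K) (D : ℕ), Wk g F →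
    (∀ i, (F i).totalDegree ≤ D) → dg g ≤ D) ∧
  (∀ (K : Type) [Field K] (g : Fin 2 → RF K) (F F' : Fin 3 → Pl K), Rep g F → Rep g F' →
    ∃ c : K, c ≠ 0 ∧ ∀ i, F' i = MvPolynomial.C c * F i) ∧
  (∀ (K : Type) [Field K] (g : Fin 2 → RF K) (F : Fin 3 → Pl K), Rep g F →
    (∀ i, (F i).totalDegree ≤ dg g) ∧ ∃ i, (F i).totalDegree = dg g)

/-- (K7) Degrees of compositions. PROOF (uses `SRep`). Let `F` represent `fun i => σ (gen K i)`, of degrees `≤ a`, and `G` represent `fun i => ρ (gen K i)`, of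
degrees `≤ b`. For `H : Pl K` of degree `≤ b` let `H♭ = ∑ m, C (H.coeff m) * F 0 ^ (b - m 0 - m 1) * F 1 ^ m 0 * F 2 ^ m 1`, of degree `≤ a b`;
`fr H♭ = fr (F 0) ^ b * σ (fr H)`. So `((G 0)♭, (G 1)♭, (G 2)♭)` is a `Wk` of `fun i => σ (ρ (gen K i))`, and `SRep`. For (b) take
`σ ^ m`, `σ ^ n`: `it σ (m + n) i = (σ ^ m) ((σ ^ n) (gen K i))`. (c) `Wk` is preserved by the base change (`cmp_it`, `bc_fr`; the degrees do
not increase: `MvPolynomial.totalDegree_map_le`, or are equal by injectivity). -/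
def SDgMul : Prop :=
  (∀ (K : Type) [Field K] (σ ρ : RF K →ₐ[K] RF K),
    dg (fun i => (σ * ρ) (gen K i)) ≤ dg (fun i => σ (gen K i)) * dg (fun i => ρ (gen K i))) ∧
  (∀ (K : Type) [Field K] (σ : RF K →ₐ[K] RF K) (m n : ℕ),
    dg (it σ (m + n)) ≤ dg (it σ m) * dg (it σ n)) ∧
  (∀ (K L : Type) [Field K] [Field L] [Algebra K L] (σK : RF K →ₐ[K] RF K) (σL : RF L →ₐ[L] RF L),
    Cmp σK σL → ∀ n, dg (it σL n) ≤ dg (it σK n))

/-! ## Values -/

/-- (K8) PROOF. (a) Given `H` let `E, N` be as in `Val ρ x' x''`, and `E₁, N₁` for `N`, `E₂, N₂` for `E` as in `Val σ x x'`. Then `N₂(x) = E₂(x) E(x') ≠ 0`;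
take `E₁ * N₂` and `N₁ * E₂`: `σ (ρ (fr H)) = σ (fr N) / σ (fr E)` (`fr E ≠ 0` since `E(x') ≠ 0`). (b) is the iteration of (a); `n = 0`: take `E = 1`,
`N = H`. (c) The set of the `H` as in `Val` is closed under sums and products and contains the constants and the variables
(`E = f.den i`, `N = f.num i`), `MvPolynomial.induction_on`. (d) is (c) for every step. (e) Apply `Val` to `X i`: `E i, N i` with
`fr (N i) = fr (E i) * ρ (gen K i)`, so `E i * F i.succ = N i * F 0`. `F 0` divides `E 0 * E 1 * F j` for `j = 0, 1, 2`, so it divides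
`E 0 * E 1` (the `F j` have no common factor; `Pl K` is factorial), so `F 0 (x) ≠ 0`; evaluate `E i * F i.succ = N i * F 0` at `x`. (f) is the
special case of the constant `E`: if `fr N = fr E * ρ (fr H)`, `E(x) ≠ 0` then `N(x) = E(x) H(x')`: compare with the `E', N'` of `Val`:
`N * E' = N' * E`. -/
def SVal : Prop :=
  (∀ (K : Type) [Field K] (σ ρ : RF K →ₐ[K] RF K) (x x' x'' : Fin 2 → K), Val σ x x' → Val ρ x' x'' →
    Val (σ * ρ) x x'') ∧
  (∀ (K : Type) [Field K] (σ : RF K →ₐ[K] RF K) (z : ℕ → Fin 2 → K), Flow σ z →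
    ∀ m n : ℕ, Val (σ ^ m) (z n) (z (n + m))) ∧
  (∀ (K : Type) [Field K] (f : RM K 2) (σ : RF K →ₐ[K] RF K) (x x' : Fin 2 → K), Of f σ → f.Next x x' →
    Val σ x x') ∧
  (∀ (K : Type) [Field K] (f : RM K 2) (σ : RF K →ₐ[K] RF K) (z : ℕ → Fin 2 → K), Of f σ → f.Orb z →
    Flow σ z) ∧
  (∀ (K : Type) [Field K] (ρ : RF K →ₐ[K] RF K) (x x' : Fin 2 → K) (F : Fin 3 → Pl K), Val ρ x x' →
    Rep (fun i => ρ (gen K i)) F → MvPolynomial.eval x (F 0) ≠ 0 ∧
    ∀ i : Fin 2, MvPolynomial.eval x (F i.succ) = MvPolynomial.eval x (F 0) * x' i) ∧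
  (∀ (K : Type) [Field K] (ρ : RF K →ₐ[K] RF K) (x x' : Fin 2 → K) (H E N : Pl K), Val ρ x x' →
    MvPolynomial.eval x E ≠ 0 → fr N = fr E * ρ (fr H) →
    MvPolynomial.eval x N = MvPolynomial.eval x E * MvPolynomial.eval x' H)

end Pool.Agent.Lib.MP_16285c_agZ
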