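import Pool.Agent.Lib.MP_16285c_agZ.KLV.Spec

/-!
# Degrees of compositions
-/

set_option autoImplicit false

namespace Pool.Agent.Lib.MP_16285c_agZ

open Pool.Agent.Lib.MP_16285c_ag

private theorem DgMul_deg {K : Type} [Field K] (F : Fin 3 → Pl K) (a b : ℕ)
    (hF : ∀ i, (F i).totalDegree ≤ a) (c : K) (m0 m1 : ℕ) (hm : m0 + m1 ≤ b) :
    (MvPolynomial.C c * F 0 ^ (b - (m0 + m1)) * F 1 ^ m0 * F 2 ^ m1).totalDegree ≤ a * b := by
  have hp : ∀ (i : Fin 3) (n : ℕ), (F i ^ n).totalDegree ≤ n * a := fun i n =>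
    (MvPolynomial.totalDegree_pow _ _).trans (Nat.mul_le_mul_left _ (hF i))
  obtain ⟨r, hr⟩ : ∃ r, b = r + (m0 + m1) := ⟨b - (m0 + m1), by omega⟩
  have h1 : b - (m0 + m1) = r := by omega
  rw [h1, hr]
  calc (MvPolynomial.C c * F 0 ^ r * F 1 ^ m0 * F 2 ^ m1).totalDegree
      ≤ (MvPolynomial.C c * F 0 ^ r * F 1 ^ m0).totalDegree + (F 2 ^ m1).totalDegree :=
        MvPolynomial.totalDegree_mul _ _
    _ ≤ (MvPolynomial.C c * F 0 ^ r).totalDegree + (F 1 ^ m0).totalDegree +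
        (F 2 ^ m1).totalDegree := by
        gcongr
        exact MvPolynomial.totalDegree_mul _ _
    _ ≤ (MvPolynomial.C (σ := Fin 2) c).totalDegree + (F 0 ^ r).totalDegree +
        (F 1 ^ m0).totalDegree + (F 2 ^ m1).totalDegree := by
        gcongr
        exact MvPolynomial.totalDegree_mul _ _
    _ ≤ 0 + r * a + m0 * a + m1 * a := by
        rw [MvPolynomial.totalDegree_C]
        gcongr
        · exact hp 0 r
        · exact hp 1 m0
        · exact hp 2 m1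
    _ = a * (r + (m0 + m1)) := by ring

private theorem DgMul_monomial {K : Type} [Field K] (m : Fin 2 →₀ ℕ) (c : K) :
    fr (MvPolynomial.monomial m c) =
      algebraMap K (RF K) c * gen K 0 ^ m 0 * gen K 1 ^ m 1 := by
  rw [MvPolynomial.monomial_eq, Finsupp.prod_fintype _ _ (fun _ => pow_zero _), Fin.prod_univ_two]
  have e1 : fr (MvPolynomial.C c * (MvPolynomial.X 0 ^ m 0 * MvPolynomial.X 1 ^ m 1)) =
      fr (MvPolynomial.C c) * (gen K 0 ^ m 0 * gen K 1 ^ m 1) := by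
    rw [fr, map_mul, map_mul, map_pow, map_pow]
    rfl
  rw [e1, fr_C]
  ring

private theorem DgMul_flat {K : Type} [Field K] (σ : RF K →ₐ[K] RF K) (F : Fin 3 → Pl K) (a b : ℕ)
    (hF : Wk (fun i => σ (gen K i)) F) (hd : ∀ i, (F i).totalDegree ≤ a) (H : Pl K)
    (hH : H.totalDegree ≤ b) :
    ∃ H' : Pl K, H'.totalDegree ≤ a * b ∧ fr H' = fr (F 0) ^ b * σ (fr H) := by
  have hs : ∀ m ∈ H.support, m 0 + m 1 ≤ b := by
    intro m hm
    have h1 := MvPolynomial.le_totalDegree hm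
    rw [Finsupp.sum_fintype _ _ (fun _ => rfl), Fin.sum_univ_two] at h1
    exact h1.trans hH
  refine ⟨∑ m ∈ H.support, MvPolynomial.C (H.coeff m) * F 0 ^ (b - (m 0 + m 1)) * F 1 ^ m 0 *
    F 2 ^ m 1, ?_, ?_⟩
  · exact MvPolynomial.totalDegree_finsetSum_le fun m hm => DgMul_deg F a b hd _ _ _ (hs m hm)
  · have h1 : fr H = ∑ m ∈ H.support, fr (MvPolynomial.monomial m (H.coeff m)) := by
      conv_lhs => rw [← MvPolynomial.support_sum_monomial_coeff H]
      exact map_sum _ _ _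
    have h2 : fr (∑ m ∈ H.support, MvPolynomial.C (H.coeff m) * F 0 ^ (b - (m 0 + m 1)) *
        F 1 ^ m 0 * F 2 ^ m 1) = ∑ m ∈ H.support, fr (MvPolynomial.C (H.coeff m) *
        F 0 ^ (b - (m 0 + m 1)) * F 1 ^ m 0 * F 2 ^ m 1) := map_sum _ _ _
    rw [h1, h2, map_sum, Finset.mul_sum]
    refine Finset.sum_congr rfl fun m hm => ?_
    rw [DgMul_monomial, map_mul, map_mul, map_pow, map_pow, AlgHom.commutes]
    have e1 : fr (MvPolynomial.C (H.coeff m) * F 0 ^ (b - (m 0 + m 1)) * F 1 ^ m 0 * F 2 ^ m 1) =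
        algebraMap K (RF K) (H.coeff m) * fr (F 0) ^ (b - (m 0 + m 1)) * fr (F 1) ^ m 0 *
          fr (F 2) ^ m 1 := by
      rw [← fr_C, fr, map_mul, map_mul, map_mul, map_pow, map_pow, map_pow]
    have e2 : fr (F 1) = σ (gen K 0) * fr (F 0) := hF.eq 0
    have e3 : fr (F 2) = σ (gen K 1) * fr (F 0) := hF.eq 1
    have e4 : fr (F 0) ^ b = fr (F 0) ^ (b - (m 0 + m 1)) * fr (F 0) ^ m 0 * fr (F 0) ^ m 1 := by
      rw [← pow_add, ← pow_add]
      congr 1
      have := hs m hm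
      omega
    rw [e1, e2, e3, e4, mul_pow, mul_pow]
    ring

private theorem DgMul_mul (h : SRep) {K : Type} [Field K] (σ ρ : RF K →ₐ[K] RF K) :
    dg (fun i => (σ * ρ) (gen K i)) ≤ dg (fun i => σ (gen K i)) * dg (fun i => ρ (gen K i)) := by
  obtain ⟨F, hF, hFd, -⟩ := h.1 K (fun i => σ (gen K i))
  obtain ⟨G, hG, hGd, -⟩ := h.1 K (fun i => ρ (gen K i))
  choose G' hG'd hG' using fun i => DgMul_flat σ F _ _ hF.toWk hFd (G i) (hGd i)
  refine h.2.1 K _ G' _ ⟨?_, ?_⟩ hG'd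
  · intro h0
    have h1 := hG' 0
    rw [h0] at h1
    have h2 : fr (0 : Pl K) = 0 := map_zero _
    rw [h2] at h1
    have h3 : fr (F 0) ^ dg (fun i => ρ (gen K i)) ≠ 0 := pow_ne_zero _ (fr_ne_zero hF.ne)
    have h4 : σ (fr (G 0)) ≠ 0 := by
      rw [Ne, map_eq_zero_iff σ σ.injective]
      exact fr_ne_zero hG.ne
    exact mul_ne_zero h3 h4 h1.symm
  · intro i
    have e1 : fr (G i.succ) = ρ (gen K i) * fr (G 0) := hG.eq i
    rw [hG', hG', e1, map_mul, AlgHom.mul_apply]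
    ring

private theorem DgMul_map {K L : Type} [Field K] [Field L] [Algebra K L] (h : SRep)
    (σK : RF K →ₐ[K] RF K) (σL : RF L →ₐ[L] RF L) (hc : Cmp σK σL) (n : ℕ) :
    dg (it σL n) ≤ dg (it σK n) := by
  obtain ⟨F, hF, hFd, -⟩ := h.1 K (it σK n)
  refine h.2.1 L _ (fun i => MvPolynomial.map (algebraMap K L) (F i)) _ ⟨?_, ?_⟩ ?_
  · intro h0
    exact hF.ne ((MvPolynomial.map_injective _ (algebraMap K L).injective)
      (h0.trans (map_zero _).symm))
  · intro i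
    rw [← bc_fr, ← bc_fr, cmp_it hc, ← map_mul, hF.eq i]
  · intro i
    refine le_trans ?_ (hFd i)
    exact Finset.sup_mono (MvPolynomial.support_map_subset _ _)

theorem tDgMul (h : SRep) : SDgMul := by
  refine ⟨fun K _ σ ρ => DgMul_mul h σ ρ, fun K _ σ m n => ?_,
    fun K L _ _ _ σK σL hc n => DgMul_map h σK σL hc n⟩
  have h1 := DgMul_mul h (σ ^ m) (σ ^ n)
  rw [← pow_add] at h1
  exact h1

end Pool.Agent.Lib.MP_16285c_agZ
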