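import Pool.Agent.Lib.MP_16285c_agZ.KLV.Spec

/-!
# KLV, NoIPow: no invariants for powers
-/

set_option autoImplicit false

namespace Pool.Agent.Lib.MP_16285c_agZ

open Pool.Agent.Lib.MP_16285c_ag

private theorem NoIPow_alg {K : Type} [Field K] {g : RF K} (hg : IsIntegral K g) :
    ∃ c : K, g = algebraMap K (RF K) c := by
  by_cases h0 : g = 0
  · exact ⟨0, by rw [h0, map_zero]⟩
  have h1 : IsIntegral (MvPolynomial (Fin 2) K) g := hg.tower_top
  have h2 : IsIntegral (MvPolynomial (Fin 2) K) g⁻¹ := hg.inv.tower_top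
  obtain ⟨G, hG⟩ := IsIntegrallyClosed.isIntegral_iff.1 h1
  obtain ⟨H, hH⟩ := IsIntegrallyClosed.isIntegral_iff.1 h2
  have h3 : G * H = 1 := by
    apply fr_injective
    rw [fr, map_mul, hG, hH, mul_inv_cancel₀ h0]
    exact (map_one _).symm
  obtain ⟨c, -, hc⟩ := MvPolynomial.isUnit_iff_eq_C_of_isReduced.1 (IsUnit.of_mul_eq_one H h3)
  exact ⟨c, by rw [← hG, hc]; exact fr_C c⟩

theorem tNoIPow : SNoIPow := by
  intro K _ σ M hM hσ g hg
  apply NoIPow_alg
  set Φ : Polynomial (RF K) := ∏ i ∈ Finset.range M, (Polynomial.X - Polynomial.C ((σ ^ i) g))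
    with hΦ
  have hmonic : Φ.Monic := Polynomial.monic_prod_X_sub_C _ _
  have hmap : Φ.map (σ : RF K →+* RF K) = Φ := by
    have h1 : Φ.map (σ : RF K →+* RF K) =
        ∏ i ∈ Finset.range M, (Polynomial.X - Polynomial.C ((σ ^ (i + 1)) g)) := by
      rw [hΦ, Polynomial.map_prod]
      refine Finset.prod_congr rfl fun i _ => ?_
      rw [Polynomial.map_sub, Polynomial.map_X, Polynomial.map_C, pow_succ', AlgHom.mul_apply]
      rfl
    rw [h1, hΦ]
    obtain ⟨M, rfl⟩ : ∃ M', M = M' + 1 := ⟨M - 1, by omega⟩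
    rw [Finset.prod_range_succ, Finset.prod_range_succ', hg, pow_zero, AlgHom.one_apply]
  have hcoeff : ∀ j, ∃ c : K, Φ.coeff j = algebraMap K (RF K) c := by
    intro j
    apply hσ
    conv_rhs => rw [← hmap]
    rw [Polynomial.coeff_map]
    rfl
  have hlift : Φ ∈ Polynomial.lifts (algebraMap K (RF K)) := by
    rw [Polynomial.lifts_iff_coeff_lifts]
    intro j
    obtain ⟨c, hc⟩ := hcoeff j
    exact ⟨c, hc.symm⟩
  obtain ⟨Ψ, hΨ, -, hΨm⟩ := Polynomial.lifts_and_degree_eq_and_monic hlift hmonic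
  refine ⟨Ψ, hΨm, ?_⟩
  rw [Polynomial.eval₂_eq_eval_map, hΨ, hΦ, Polynomial.eval_prod]
  refine Finset.prod_eq_zero (Finset.mem_range.2 hM) ?_
  rw [pow_zero, AlgHom.one_apply, Polynomial.eval_sub, Polynomial.eval_X, Polynomial.eval_C,
    sub_self]

end Pool.Agent.Lib.MP_16285c_agZ
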