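import Pool.Agent.Lib.MP_16285c_agZ.KLV.Spec

/-!
# Coprime representatives; the degree is attained
-/

set_option autoImplicit false

namespace Pool.Agent.Lib.MP_16285c_agZ

section

variable {K : Type} [Field K]

private theorem rep_mul (A B : Pl K) : fr (A * B) = fr A * fr B := map_mul _ _ _

private theorem rep_gcd (F : Fin 3 → Pl K) (h0 : F 0 ≠ 0) :
    ∃ (c : Pl K) (G : Fin 3 → Pl K), c ≠ 0 ∧ (∀ i, F i = c * G i) ∧
      ∀ d : Pl K, (∀ i, d ∣ G i) → IsUnit d := by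
  classical
  let _ : GCDMonoid (Pl K) := UniqueFactorizationMonoid.toGCDMonoid (Pl K)
  have h : ∀ i, gcd (F 0) (gcd (F 1) (F 2)) ∣ F i := by
    intro i
    fin_cases i
    · exact gcd_dvd_left _ _
    · exact (gcd_dvd_right _ _).trans (gcd_dvd_left _ _)
    · exact (gcd_dvd_right _ _).trans (gcd_dvd_right _ _)
  choose G hG using h
  have hc : gcd (F 0) (gcd (F 1) (F 2)) ≠ 0 := by
    intro h
    have := hG 0
    rw [h, zero_mul] at this
    exact h0 this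
  refine ⟨_, G, hc, hG, fun d hd => ?_⟩
  have h1 : gcd (F 0) (gcd (F 1) (F 2)) * d ∣ gcd (F 0) (gcd (F 1) (F 2)) := by
    have h2 : ∀ i, gcd (F 0) (gcd (F 1) (F 2)) * d ∣ F i := by
      intro i
      rw [hG i]
      exact mul_dvd_mul_left _ (hd i)
    exact dvd_gcd (h2 0) (dvd_gcd (h2 1) (h2 2))
  have h3 : gcd (F 0) (gcd (F 1) (F 2)) * d ∣ gcd (F 0) (gcd (F 1) (F 2)) * 1 := by
    rw [mul_one]
    exact h1
  exact isUnit_of_dvd_one ((mul_dvd_mul_iff_left hc).1 h3)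

/-- If the `F i` have no common factor and `a ∣ b * F i` for all `i` then `a ∣ b`. -/
private theorem rep_dvd (F : Fin 3 → Pl K) (hF : ∀ d : Pl K, (∀ i, d ∣ F i) → IsUnit d)
    (a b : Pl K) (h : ∀ i, a ∣ b * F i) : a ∣ b := by
  classical
  let _ : GCDMonoid (Pl K) := UniqueFactorizationMonoid.toGCDMonoid (Pl K)
  have hu : IsUnit (gcd (F 0) (gcd (F 1) (F 2))) := by
    refine hF _ fun i => ?_
    fin_cases i
    · exact gcd_dvd_left _ _
    · exact (gcd_dvd_right _ _).trans (gcd_dvd_left _ _)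
    · exact (gcd_dvd_right _ _).trans (gcd_dvd_right _ _)
  have h1 : a ∣ b * gcd (F 1) (F 2) :=
    (dvd_gcd (h 1) (h 2)).trans (gcd_mul_left' b (F 1) (F 2)).dvd
  have h2 : a ∣ b * gcd (F 0) (gcd (F 1) (F 2)) :=
    (dvd_gcd (h 0) h1).trans (gcd_mul_left' b (F 0) (gcd (F 1) (F 2))).dvd
  exact hu.dvd_mul_right.1 h2

private theorem rep_deg {c G : Pl K} (hc : c ≠ 0) : G.totalDegree ≤ (c * G).totalDegree := by
  by_cases h : G = 0
  · rw [h, mul_zero]
  · rw [MvPolynomial.totalDegree_mul_of_isDomain hc h]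
    exact Nat.le_add_left _ _

private theorem rep_of_wk {g : Fin 2 → RF K} {F : Fin 3 → Pl K} (h : Wk g F) :
    ∃ G : Fin 3 → Pl K, Rep g G ∧ ∀ i, (G i).totalDegree ≤ (F i).totalDegree := by
  obtain ⟨c, G, hc, hG, hcop⟩ := rep_gcd F h.ne
  refine ⟨G, ⟨⟨?_, fun i => ?_⟩, hcop⟩, fun i => ?_⟩
  · intro h0
    exact h.ne (by rw [hG 0, h0, mul_zero])
  · have h1 := h.eq i
    rw [hG, hG 0] at h1
    have h2 : fr c * fr (G i.succ) = fr c * (g i * fr (G 0)) := by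
      rw [rep_mul, rep_mul] at h1
      rw [h1]
      ring
    exact mul_left_cancel₀ (fr_ne_zero hc) h2
  · rw [hG i]
    exact rep_deg hc

private theorem wk_exists (g : Fin 2 → RF K) : ∃ F : Fin 3 → Pl K, Wk g F := by
  obtain ⟨N0, D0, h0, e0⟩ := exists_fr (g 0)
  obtain ⟨N1, D1, h1, e1⟩ := exists_fr (g 1)
  refine ⟨![D0 * D1, N0 * D1, N1 * D0], mul_ne_zero h0 h1, fun i => ?_⟩
  have f0 := fr_ne_zero h0
  have f1 := fr_ne_zero h1
  fin_cases i
  · change fr (N0 * D1) = g 0 * fr (D0 * D1)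
    rw [e0, rep_mul, rep_mul]
    field_simp
  · change fr (N1 * D0) = g 1 * fr (D0 * D1)
    rw [e1, rep_mul, rep_mul]
    field_simp

private theorem rep_uniq {g : Fin 2 → RF K} {F F' : Fin 3 → Pl K} (h : Rep g F) (h' : Rep g F') :
    ∃ c : K, c ≠ 0 ∧ ∀ i, F' i = MvPolynomial.C c * F i := by
  have key : ∀ i, F' 0 * F i = F 0 * F' i := by
    intro i
    refine Fin.cases ?_ (fun j => ?_) i
    · exact mul_comm _ _
    · refine fr_injective ?_
      rw [rep_mul, rep_mul, h.eq j, h'.eq j]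
      ring
  have d1 : F 0 ∣ F' 0 := rep_dvd F h.cop _ _ fun i => ⟨F' i, key i⟩
  have d2 : F' 0 ∣ F 0 := rep_dvd F' h'.cop _ _ fun i => ⟨F i, (key i).symm⟩
  obtain ⟨u, hu⟩ := associated_of_dvd_dvd d1 d2
  obtain ⟨c, hc, hcu⟩ := MvPolynomial.isUnit_iff_eq_C_of_isReduced.1 u.isUnit
  refine ⟨c, hc.ne_zero, fun i => ?_⟩
  have h1 := key i
  rw [← hu, hcu] at h1
  refine mul_left_cancel₀ h.ne ?_
  rw [← h1]
  ring

private theorem rep_dg (g : Fin 2 → RF K) : ∃ F : Fin 3 → Pl K, Rep g F ∧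
    (∀ i, (F i).totalDegree ≤ dg g) ∧ ∃ i, (F i).totalDegree = dg g := by
  have hne : {D : ℕ | ∃ F : Fin 3 → Pl K, Rep g F ∧ ∀ i, (F i).totalDegree ≤ D}.Nonempty := by
    obtain ⟨F, hF⟩ := wk_exists g
    obtain ⟨G, hG, -⟩ := rep_of_wk hF
    exact ⟨∑ i, (G i).totalDegree, G, hG, fun i =>
      Finset.single_le_sum (f := fun i => (G i).totalDegree) (fun _ _ => Nat.zero_le _)
        (Finset.mem_univ i)⟩
  obtain ⟨F, hF, hd⟩ := Nat.sInf_mem hne
  refine ⟨F, hF, hd, ?_⟩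
  by_contra hc
  push Not at hc
  have h1 : ∀ i, (F i).totalDegree < dg g := fun i => lt_of_le_of_ne (hd i) (hc i)
  have h2 : dg g ≤ dg g - 1 := Nat.sInf_le ⟨F, hF, fun i => Nat.le_sub_one_of_lt (h1 i)⟩
  have h3 := h1 0
  omega

end

theorem tRep : SRep := by
  refine ⟨fun K _ g => rep_dg g, fun K _ g F D hF hD => ?_, fun K _ g F F' h h' => rep_uniq h h',
    fun K _ g F h => ?_⟩
  · obtain ⟨G, hG, hd⟩ := rep_of_wk hF
    exact Nat.sInf_le ⟨G, hG, fun i => (hd i).trans (hD i)⟩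
  · obtain ⟨F', h', h1, i, hi⟩ := rep_dg g
    obtain ⟨c, hc, hF⟩ := rep_uniq h' h
    have hc' : (MvPolynomial.C c : Pl K) ≠ 0 := by
      rw [Ne, MvPolynomial.C_eq_zero]
      exact hc
    have hd : ∀ j, (F j).totalDegree = (F' j).totalDegree := by
      intro j
      rw [hF j]
      by_cases h0 : F' j = 0
      · rw [h0, mul_zero]
      · rw [MvPolynomial.totalDegree_mul_of_isDomain hc' h0, MvPolynomial.totalDegree_C, zero_add]
    exact ⟨fun j => (hd j).le.trans (h1 j), i, (hd i).trans hi⟩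

end Pool.Agent.Lib.MP_16285c_agZ
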