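import Pool.Agent.Lib.MP_16285c_agZ.KLV.Spec

/-!
# Values of rational maps at points
-/

set_option autoImplicit false

namespace Pool.Agent.Lib.MP_16285c_agZ

open Pool.Agent.Lib.MP_16285c_ag

private theorem Val_mul {K : Type} [Field K] (σ ρ : RF K →ₐ[K] RF K) (x x' x'' : Fin 2 → K)
    (h1 : Val σ x x') (h2 : Val ρ x' x'') : Val (σ * ρ) x x'' := by
  intro H
  obtain ⟨E, N, hE, hN, hv⟩ := h2 H
  obtain ⟨E1, N1, hE1, hN1, hv1⟩ := h1 N
  obtain ⟨E2, N2, hE2, hN2, hv2⟩ := h1 E
  refine ⟨E1 * N2, N1 * E2, ?_, ?_, ?_⟩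
  · rw [map_mul, hv2]
    exact mul_ne_zero hE1 (mul_ne_zero hE2 hE)
  · rw [AlgHom.mul_apply]
    have h3 : σ (fr N) = σ (fr E) * σ (ρ (fr H)) := by rw [hN, map_mul]
    have e1 : fr (N1 * E2) = fr N1 * fr E2 := map_mul _ _ _
    have e2 : fr (E1 * N2) = fr E1 * fr N2 := map_mul _ _ _
    rw [e1, e2, hN1, hN2, h3]
    ring
  · rw [map_mul, map_mul, hv1, hv2, hv]
    ring

private theorem Val_one {K : Type} [Field K] (x : Fin 2 → K) : Val (1 : RF K →ₐ[K] RF K) x x := by
  intro H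
  refine ⟨1, H, by rw [map_one]; exact one_ne_zero, ?_, by rw [map_one, one_mul]⟩
  have e1 : fr (1 : Pl K) = 1 := map_one _
  rw [e1, one_mul, AlgHom.one_apply]

private theorem Val_pow {K : Type} [Field K] (σ : RF K →ₐ[K] RF K) (z : ℕ → Fin 2 → K)
    (hz : Flow σ z) (m n : ℕ) : Val (σ ^ m) (z n) (z (n + m)) := by
  induction m with
  | zero =>
    rw [pow_zero, add_zero]
    exact Val_one _
  | succ m ih =>
    rw [pow_succ, ← add_assoc]
    exact Val_mul _ _ _ _ _ ih (hz _)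

private theorem Val_of {K : Type} [Field K] (f : RM K 2) (σ : RF K →ₐ[K] RF K) (x x' : Fin 2 → K)
    (hf : Of f σ) (h : f.Next x x') : Val σ x x' := by
  intro H
  induction H using MvPolynomial.induction_on with
  | C a =>
    refine ⟨1, MvPolynomial.C a, by rw [map_one]; exact one_ne_zero, ?_, ?_⟩
    · have e1 : fr (1 : Pl K) = 1 := map_one _
      rw [e1, one_mul, fr_C, AlgHom.commutes]
    · rw [map_one, one_mul, MvPolynomial.eval_C, MvPolynomial.eval_C]
  | add p q hp hq =>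
    obtain ⟨E, N, hE, hN, hv⟩ := hp
    obtain ⟨E', N', hE', hN', hv'⟩ := hq
    refine ⟨E * E', N * E' + N' * E, ?_, ?_, ?_⟩
    · rw [map_mul]
      exact mul_ne_zero hE hE'
    · have e1 : fr (N * E' + N' * E) = fr N * fr E' + fr N' * fr E := by
        rw [fr, map_add, map_mul, map_mul]
      have e2 : fr (E * E') = fr E * fr E' := map_mul _ _ _
      have e3 : fr (p + q) = fr p + fr q := map_add _ _ _
      rw [e1, e2, e3, map_add, hN, hN']
      ring
    · rw [map_add, map_mul, map_mul, map_mul, map_add, hv, hv']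
      ring
  | mul_X p i hp =>
    obtain ⟨E, N, hE, hN, hv⟩ := hp
    refine ⟨E * f.den i, N * f.num i, ?_, ?_, ?_⟩
    · rw [map_mul]
      exact mul_ne_zero hE (h i).1
    · have e1 : fr (N * f.num i) = fr N * fr (f.num i) := map_mul _ _ _
      have e2 : fr (E * f.den i) = fr E * fr (f.den i) := map_mul _ _ _
      have e3 : fr (p * MvPolynomial.X i) = fr p * gen K i := map_mul _ _ _
      rw [e1, e2, e3, map_mul, hN, ← (hf i).2]
      ring
    · rw [map_mul, map_mul, map_mul, MvPolynomial.eval_X, hv, ← (h i).2]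
      ring

private theorem Val_cmp {K : Type} [Field K] (ρ : RF K →ₐ[K] RF K) (x x' : Fin 2 → K)
    (H E N : Pl K) (h : Val ρ x x')
    (hN : fr N = fr E * ρ (fr H)) :
    MvPolynomial.eval x N = MvPolynomial.eval x E * MvPolynomial.eval x' H := by
  obtain ⟨E', N', hE', hN', hv'⟩ := h H
  have h1 : N * E' = N' * E := by
    apply fr_injective
    have e1 : fr (N * E') = fr N * fr E' := map_mul _ _ _
    have e2 : fr (N' * E) = fr N' * fr E := map_mul _ _ _
    rw [e1, e2, hN, hN']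
    ring
  have h2 : MvPolynomial.eval x N * MvPolynomial.eval x E' =
      MvPolynomial.eval x N' * MvPolynomial.eval x E := by
    rw [← map_mul, ← map_mul, h1]
  rw [hv'] at h2
  apply mul_right_cancel₀ hE'
  rw [h2]
  ring

private theorem Val_dvd {K : Type} [Field K] (F : Fin 3 → Pl K)
    (hc : ∀ c : Pl K, (∀ i, c ∣ F i) → IsUnit c) (a b : Pl K) (h : ∀ i, a ∣ b * F i) : a ∣ b := by
  obtain ⟨_⟩ : Nonempty (NormalizedGCDMonoid (Pl K)) := by
    let _ : NormalizationMonoid (Pl K) :=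
      (UniqueFactorizationMonoid.strongNormalizationMonoid (α := Pl K)).toNormalizationMonoid
    exact ⟨UniqueFactorizationMonoid.toNormalizedGCDMonoid (Pl K)⟩
  have h1 : a ∣ Finset.univ.gcd (fun i => b * F i) := Finset.dvd_gcd fun i _ => h i
  have h2 : IsUnit (Finset.univ.gcd F) := hc _ fun i => Finset.gcd_dvd (Finset.mem_univ i)
  exact (h2.dvd_mul_right).1 (h1.trans (Finset.gcd_mul_left' Finset.univ F b).dvd)

private theorem Val_rep {K : Type} [Field K] (ρ : RF K →ₐ[K] RF K) (x x' : Fin 2 → K)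
    (F : Fin 3 → Pl K) (h : Val ρ x x') (hF : Rep (fun i => ρ (gen K i)) F) :
    MvPolynomial.eval x (F 0) ≠ 0 ∧
    ∀ i : Fin 2, MvPolynomial.eval x (F i.succ) = MvPolynomial.eval x (F 0) * x' i := by
  choose E N hE hN hv using fun i : Fin 2 => h (MvPolynomial.X i)
  have h1 : ∀ i : Fin 2, E i * F i.succ = N i * F 0 := by
    intro i
    apply fr_injective
    have e1 : fr (E i * F i.succ) = fr (E i) * fr (F i.succ) := map_mul _ _ _
    have e2 : fr (N i * F 0) = fr (N i) * fr (F 0) := map_mul _ _ _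
    have e3 : fr (N i) = fr (E i) * ρ (gen K i) := hN i
    have e4 : fr (F i.succ) = ρ (gen K i) * fr (F 0) := hF.eq i
    rw [e1, e2, e3, e4]
    ring
  have h2 : F 0 ∣ E 0 * E 1 := by
    apply Val_dvd F hF.cop
    intro i
    refine Fin.cases ?_ (fun j => ?_) i
    · exact dvd_mul_left _ _
    · fin_cases j
      · refine ⟨E 1 * N 0, ?_⟩
        have := h1 0
        calc E 0 * E 1 * F (Fin.succ 0) = E 1 * (E 0 * F (Fin.succ 0)) := by ring
          _ = F 0 * (E 1 * N 0) := by rw [h1 0]; ring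
      · refine ⟨E 0 * N 1, ?_⟩
        calc E 0 * E 1 * F (Fin.succ 1) = E 0 * (E 1 * F (Fin.succ 1)) := by ring
          _ = F 0 * (E 0 * N 1) := by rw [h1 1]; ring
  have h3 : MvPolynomial.eval x (F 0) ≠ 0 := by
    obtain ⟨c, hc⟩ := h2
    intro h0
    have := congrArg (MvPolynomial.eval x) hc
    rw [map_mul, map_mul, h0, zero_mul] at this
    exact mul_ne_zero (hE 0) (hE 1) this
  refine ⟨h3, fun i => ?_⟩
  have h4 := congrArg (MvPolynomial.eval x) (h1 i)
  rw [map_mul, map_mul, hv i, MvPolynomial.eval_X] at h4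
  apply mul_left_cancel₀ (hE i)
  rw [h4]
  ring

theorem tVal : SVal :=
  ⟨fun _ _ σ ρ x x' x'' h1 h2 => Val_mul σ ρ x x' x'' h1 h2,
    fun _ _ σ z hz m n => Val_pow σ z hz m n,
    fun _ _ f σ x x' hf h => Val_of f σ x x' hf h,
    fun _ _ f σ _ hf h n => Val_of f σ _ _ hf (h n),
    fun _ _ ρ x x' F h hF => Val_rep ρ x x' F h hF,
    fun _ _ ρ x x' H E N h _ hN => Val_cmp ρ x x' H E N h hN⟩

end Pool.Agent.Lib.MP_16285c_agZ
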