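import Pool.Agent.Lib.MP_16285c_agZ.KLV.Spec

/-!
# The topological degree is multiplicative (K5)
-/

set_option autoImplicit false

namespace Pool.Agent.Lib.MP_16285c_agZ

theorem TpPowAux.tp_mul (K : Type) [Field K] (σ ρ : RF K →ₐ[K] RF K) :
    tp (σ * ρ) = tp σ * tp ρ := by
  have hA : (σ * ρ).fieldRange = ρ.fieldRange.map σ := (AlgHom.map_fieldRange ρ σ).symm
  have hB : σ.fieldRange = (⊤ : IntermediateField K (RF K)).map σ := AlgHom.fieldRange_eq_map σ
  have hle : ρ.fieldRange.map σ ≤ (⊤ : IntermediateField K (RF K)).map σ :=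
    IntermediateField.map_mono σ le_top
  have h1 := IntermediateField.relfinrank_mul_finrank_top hle
  have h2 : IntermediateField.relfinrank (ρ.fieldRange.map σ) ((⊤ : IntermediateField K (RF K)).map σ) =
      Module.finrank ρ.fieldRange (RF K) := by
    rw [IntermediateField.relfinrank_map_map, IntermediateField.relfinrank_top_right]
  unfold tp
  rw [hA, ← h1, h2, hB, mul_comm]

theorem TpPowAux.tp_one (K : Type) [Field K] : tp (1 : RF K →ₐ[K] RF K) = 1 := by
  unfold tp
  have h : (1 : RF K →ₐ[K] RF K).fieldRange = ⊤ := by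
    rw [eq_top_iff]
    intro x _
    exact ⟨x, rfl⟩
  rw [h]
  exact IntermediateField.finrank_top

theorem tTpPow : STpPow := by
  refine ⟨TpPowAux.tp_mul, fun K _ σ m => ?_, fun K _ σ => ?_⟩
  · induction m with
    | zero => rw [pow_zero, pow_zero, TpPowAux.tp_one]
    | succ m ih => rw [pow_succ, TpPowAux.tp_mul, ih, pow_succ]
  · unfold tp
    constructor
    · intro h
      exact Module.finite_of_finrank_pos h
    · intro h
      exact Module.finrank_pos

end Pool.Agent.Lib.MP_16285c_agZ
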